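import Pool.Agent.W602.RG.Stm

/-! # Project RG, part RGM: regularity at the places which are trivial on `L` -/

set_option autoImplicit false

open FF Pool.Agent.W603.LV Pool.Agent.W602.RG Polynomial

namespace Pool.Agent.W440.RG.RGM

section poly

variable {k E : Type} [Field k] [Field E] [Algebra k E] (B : Subring E)

theorem pow_sub' {a b : E} (ha : a ∈ B) (hb : b ∈ B) (n : ℕ) :
    ∃ h ∈ B, a ^ n - b ^ n = (a - b) * h := by
  induction n with
  | zero => exact ⟨0, B.zero_mem, by simp⟩
  | succ n ih =>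
    obtain ⟨h, hh, he⟩ := ih
    refine ⟨a ^ n + h * b, B.add_mem (B.pow_mem ha n) (B.mul_mem hh hb), ?_⟩
    rw [pow_succ, pow_succ]
    linear_combination b * he

theorem pow_taylor {b c : E} (hb : b ∈ B) (hc : c ∈ B) (n : ℕ) :
    ∃ h ∈ B, b ^ n = c ^ n + (n : E) * c ^ (n - 1) * (b - c) + h * (b - c) ^ 2 := by
  induction n with
  | zero => exact ⟨0, B.zero_mem, by simp⟩
  | succ n ih =>
    obtain ⟨h, hh, he⟩ := ih
    have hn : (n : E) * c ^ (n - 1) * c = n * c ^ n := by
      rcases Nat.eq_zero_or_pos n with rfl | hn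
      · simp
      · obtain ⟨m, rfl⟩ := Nat.exists_eq_add_of_lt hn
        simp only [Nat.zero_add, Nat.add_sub_cancel]
        ring
    have hnB : (n : E) ∈ B := natCast_mem B n
    refine ⟨(n : E) * c ^ (n - 1) + h * c + h * (b - c),
      B.add_mem (B.add_mem (B.mul_mem hnB (B.pow_mem hc _)) (B.mul_mem hh hc))
        (B.mul_mem hh (B.sub_mem hb hc)), ?_⟩
    rw [pow_succ, pow_succ, Nat.add_sub_cancel]
    push_cast
    linear_combination b * he + (b - c) * hn

variable (hk : ∀ c : k, algebraMap k E c ∈ B)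

include hk

theorem aeval_mem' {a : E} (ha : a ∈ B) (p : k[X]) : aeval a p ∈ B := by
  induction p using Polynomial.induction_on' with
  | add p q hp hq => rw [map_add]; exact B.add_mem hp hq
  | monomial n r =>
    rw [aeval_monomial]
    exact B.mul_mem (hk r) (B.pow_mem ha n)

theorem aeval_sub' {a b : E} (ha : a ∈ B) (hb : b ∈ B) (p : k[X]) :
    ∃ h ∈ B, aeval a p - aeval b p = (a - b) * h := by
  induction p using Polynomial.induction_on' with
  | add p q hp hq =>
    obtain ⟨h, hh, he⟩ := hp
    obtain ⟨h', hh', he'⟩ := hq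
    refine ⟨h + h', B.add_mem hh hh', ?_⟩
    rw [map_add, map_add]
    linear_combination he + he'
  | monomial n r =>
    obtain ⟨h, hh, he⟩ := pow_sub' B ha hb n
    refine ⟨algebraMap k E r * h, B.mul_mem (hk r) hh, ?_⟩
    rw [aeval_monomial, aeval_monomial]
    linear_combination (algebraMap k E r) * he

theorem E2_mem {a b : E} (ha : a ∈ B) (hb : b ∈ B) (G : k[X][X]) : E2 a b G ∈ B := by
  induction G using Polynomial.induction_on' with
  | add p q hp hq => rw [map_add]; exact B.add_mem hp hq
  | monomial n r =>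
    rw [E2_monomial]
    exact B.mul_mem (aeval_mem' B hk ha r) (B.pow_mem hb n)

theorem E2_sub {a b y : E} (ha : a ∈ B) (hb : b ∈ B) (hy : y ∈ B) (G : k[X][X]) :
    ∃ h ∈ B, E2 a y G - E2 b y G = (a - b) * h := by
  induction G using Polynomial.induction_on' with
  | add p q hp hq =>
    obtain ⟨h, hh, he⟩ := hp
    obtain ⟨h', hh', he'⟩ := hq
    refine ⟨h + h', B.add_mem hh hh', ?_⟩
    rw [map_add, map_add]
    linear_combination he + he'
  | monomial n r =>
    obtain ⟨h, hh, he⟩ := aeval_sub' B hk ha hb r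
    refine ⟨h * y ^ n, B.mul_mem hh (B.pow_mem hy n), ?_⟩
    rw [E2_monomial, E2_monomial]
    linear_combination (y ^ n) * he

theorem E2_taylor {a b c : E} (ha : a ∈ B) (hb : b ∈ B) (hc : c ∈ B) (G : k[X][X]) :
    ∃ h ∈ B, E2 a b G = E2 a c G + E2 a c (derivative G) * (b - c) + h * (b - c) ^ 2 := by
  induction G using Polynomial.induction_on' with
  | add p q hp hq =>
    obtain ⟨h, hh, he⟩ := hp
    obtain ⟨h', hh', he'⟩ := hq
    refine ⟨h + h', B.add_mem hh hh', ?_⟩
    rw [derivative_add, map_add, map_add, map_add]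
    linear_combination he + he'
  | monomial n r =>
    obtain ⟨h, hh, he⟩ := pow_taylor B hb hc n
    refine ⟨aeval a r * h, B.mul_mem (aeval_mem' B hk ha r) hh, ?_⟩
    rw [derivative_monomial, E2_monomial, E2_monomial, E2_monomial, map_mul, map_natCast]
    linear_combination (aeval a r) * he

omit hk

theorem E2_map {K K' : Type} [Field K] [Algebra k K] [Field K'] [Algebra k K']
    (φ : K →ₐ[k] K') (t y : K) (G : k[X][X]) : φ (E2 t y G) = E2 (φ t) (φ y) G := by
  induction G using Polynomial.induction_on' with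
  | add p q hp hq => rw [map_add, map_add, map_add, hp, hq]
  | monomial n r =>
    rw [E2_monomial, E2_monomial, map_mul, map_pow, aeval_algHom_apply]

end poly

section place

variable {Ω E : Type} [Field Ω] [Field E] [Algebra Ω E] (P : Place Ω E)

theorem ge_iff {f : E} {N : ℤ} (hf : f ≠ 0) : Ge P N f ↔ N ≤ P.ord f := by
  constructor
  · rintro (h | h)
    · exact absurd h hf
    · exact h
  · intro h
    exact Or.inr h

theorem const_zero {c : Ω} (h : Ge P 1 (algebraMap Ω E c)) : c = 0 := by
  by_contra hc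
  have h0 : algebraMap Ω E c ≠ 0 := by
    rw [_root_.map_ne_zero]
    exact hc
  rw [ge_iff P h0, P.ord_const hc] at h
  omega

theorem uniq {c c' : Ω} {f : E} (h : Ge P 1 (f - algebraMap Ω E c))
    (h' : Ge P 1 (f - algebraMap Ω E c')) : c = c' := by
  have h1 : Ge P 1 (algebraMap Ω E (c' - c)) := by
    have := Ge.sub h h'
    rw [map_sub]
    convert this using 1
    ring
  have := const_zero P h1
  exact (sub_eq_zero.1 this).symm

/-- invertible elements of `B` of order zero -/
structure Un (B : Subring E) (u : E) : Prop where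
  mem : u ∈ B
  ne : u ≠ 0
  ord : P.ord u = 0

theorem Un.one {B : Subring E} : Un P B (1 : E) := ⟨B.one_mem, one_ne_zero, P.ord_one⟩

theorem Un.mul {B : Subring E} {u v : E} (hu : Un P B u) (hv : Un P B v) : Un P B (u * v) :=
  ⟨B.mul_mem hu.mem hv.mem, mul_ne_zero hu.ne hv.ne, by
    rw [P.ord_mul hu.ne hv.ne, hu.ord, hv.ord, add_zero]⟩

end place

theorem main : S_RGM := by
  intro k L Ω E _ _ _ _ _ _ _ _ _ _ _ _ _ _ _ hBC D D0 hDD0 P hP
  have tL : IsScalarTower k L E := hBC.towerL
  have tO : IsScalarTower k Ω E := hBC.towerO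
  set iL := algebraMap L E with hiL
  set iO := algebraMap Ω E with hiO
  -- residues
  have hreg : ∀ l, Ge P 0 (iL l) := fun l => Or.inr (hP l).ge
  choose s hs using fun l => exists_const P (hreg l)
  have sL : ∀ c : k, s (algebraMap k L c) = algebraMap k Ω c := by
    intro c
    refine uniq P (hs _) ?_
    have : iL (algebraMap k L c) - algebraMap Ω E (algebraMap k Ω c) = 0 := by
      rw [hiL, ← IsScalarTower.algebraMap_apply, ← IsScalarTower.algebraMap_apply, sub_self]
    rw [this]
    exact Ge.zero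
  let S : L →ₐ[k] Ω :=
    { toFun := s
      map_one' := by
        have := sL 1
        rwa [map_one, map_one] at this
      map_zero' := by
        have := sL 0
        rwa [map_zero, map_zero] at this
      map_add' := by
        intro a b
        refine uniq P (hs _) ?_
        have := Ge.add (hs a) (hs b)
        rw [map_add, map_add]
        convert this using 1
        ring
      map_mul' := by
        intro a b
        refine uniq P (hs _) ?_
        have h1 := Ge.mul (hs a) (hreg b)
        have h2 := Ge.mul (Ge.const (P := P) (s a)) (hs b)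
        rw [add_zero] at h1
        rw [zero_add] at h2
        have := Ge.add h1 h2
        rw [map_mul, map_mul]
        convert this using 1
        ring
      commutes' := sL }
  have hS : ∀ l, S l = s l := fun _ => rfl
  -- the ring
  let A : Subalgebra Ω E := Algebra.adjoin Ω (Set.range iL)
  let B : Subring E := A.toSubring
  have hBL : ∀ l, iL l ∈ B := fun l => Algebra.subset_adjoin ⟨l, rfl⟩
  have hBO : ∀ c : Ω, iO c ∈ B := fun c => A.algebraMap_mem c
  have hBk : ∀ c : k, algebraMap k E c ∈ B := by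
    intro c
    rw [IsScalarTower.algebraMap_apply k Ω E]
    exact hBO _
  have hspan : ∀ b ∈ Submodule.span Ω (Set.range iL), b ∈ B := by
    intro b hb
    exact Algebra.span_le_adjoin Ω (Set.range iL) hb
  have hind : ∀ (p : E → Prop), (∀ l, p (iL l)) → (∀ c, p (iO c)) →
      (∀ x ∈ B, ∀ y ∈ B, p x → p y → p (x + y)) → (∀ x ∈ B, ∀ y ∈ B, p x → p y → p (x * y)) →
      ∀ b ∈ B, p b := by
    intro p h1 h2 h3 h4 b hb
    have hb' : b ∈ Algebra.adjoin Ω (Set.range iL) := hb
    induction hb' using Algebra.adjoin_induction with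
    | mem x hx =>
      obtain ⟨l, rfl⟩ := hx
      exact h1 l
    | algebraMap r => exact h2 r
    | add x y hx hy ihx ihy => exact h3 x hx y hy (ihx hx) (ihy hy)
    | mul x y hx hy ihx ihy => exact h4 x hx y hy (ihx hx) (ihy hy)
  have hBreg : ∀ b ∈ B, Ge P 0 b := by
    refine hind _ hreg (fun c => Ge.const c) (fun x _ y _ hx hy => hx.add hy) ?_
    intro x _ y _ hx hy
    have := hx.mul hy
    rwa [add_zero] at this
  have hDL : ∀ l, D (iL l) = 0 := fun l => D.map_algebraMap l
  have hDB : ∀ b ∈ B, D b ∈ B := by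
    refine hind _ (fun l => ?_) (fun c => ?_) (fun x _ y _ hx hy => ?_)
      (fun x hx' y hy' hx hy => ?_)
    · rw [hDL]
      exact B.zero_mem
    · rw [hDD0]
      exact hBO _
    · rw [map_add]
      exact B.add_mem hx hy
    · rw [D.leibniz, smul_eq_mul, smul_eq_mul]
      exact B.add_mem (B.mul_mem hx' hy) (B.mul_mem hy' hx)
  -- the element x
  obtain ⟨z0, hz0⟩ := IsFF.exists_transcendental (k := k) (K := L)
  obtain ⟨x, hx⟩ : ∃ x, x = iL z0 - iO (s z0) := ⟨_, rfl⟩
  have hxB : x ∈ B := by
    rw [hx]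
    exact B.sub_mem (hBL _) (hBO _)
  have hx0 : x ≠ 0 := by
    intro h0
    have hli : LinearIndependent k ![(1 : L), z0] := by
      rw [LinearIndependent.pair_iff]
      intro a b hab
      by_cases hb : b = 0
      · subst hb
        rw [zero_smul, add_zero, smul_eq_zero] at hab
        rcases hab with h | h
        · exact ⟨h, rfl⟩
        · exact absurd h one_ne_zero
      · exfalso
        apply hz0
        have h1 : z0 = algebraMap k L (-a / b) := by
          rw [Algebra.smul_def, Algebra.smul_def, mul_one] at hab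
          have hb' : algebraMap k L b ≠ 0 := by
            rw [_root_.map_ne_zero]
            exact hb
          rw [map_div₀, map_neg, eq_div_iff hb']
          linear_combination hab
        rw [h1]
        exact isAlgebraic_algebraMap _
    have h2 := hBC.ld 2 _ hli
    have h3 : LinearIndependent Ω ![iL 1, iL z0] := by
      convert h2 using 1
      ext i
      fin_cases i <;> rfl
    rw [LinearIndependent.pair_iff] at h3
    have h4 := h3 (s z0) (-1) (by
      rw [Algebra.smul_def, Algebra.smul_def, map_one, map_neg, map_one]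
      rw [← hiO]
      linear_combination (-1 : E) * (hx.symm.trans h0))
    exact one_ne_zero (neg_eq_zero.1 h4.2)
  have hx1 : 1 ≤ P.ord x := by
    rw [← ge_iff P hx0, hx]
    exact hs z0
  have hDx : D x = - iO (D0 (s z0)) := by
    rw [hx, map_sub, hDL, hDD0, zero_sub]
  -- step 1
  have step1 : ∀ l, ∃ u h, Un P B u ∧ h ∈ B ∧ (iL l - iO (s l)) * u = x * h := by
    intro l
    obtain ⟨G, hG, hG'⟩ := exists_poly hz0 l
    have e1 : E2 (iL z0) (iL l) G = 0 := by
      have := E2_map (IsScalarTower.toAlgHom k L E) z0 l G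
      rw [hG, map_zero] at this
      exact this.symm
    have e2 : E2 (iO (s z0)) (iO (s l)) G = 0 := by
      have h1 := E2_map S z0 l G
      rw [hG, map_zero] at h1
      have h2 := E2_map (IsScalarTower.toAlgHom k Ω E) (S z0) (S l) G
      rw [← h1, map_zero] at h2
      exact h2.symm
    have e3 : E2 (iO (s z0)) (iO (s l)) (derivative G) =
        iO (S (E2 z0 l (derivative G))) := by
      have h1 := E2_map S z0 l (derivative G)
      have h2 := E2_map (IsScalarTower.toAlgHom k Ω E) (S z0) (S l) (derivative G)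
      rw [← h1] at h2
      exact h2.symm
    obtain ⟨H1, hH1, eH1⟩ := E2_sub B hBk (hBL z0) (hBO (s z0)) (hBL l) G
    obtain ⟨κ, hκ, eκ⟩ := E2_taylor B hBk (hBO (s z0)) (hBL l) (hBO (s l)) G
    rw [← hx, e1] at eH1
    rw [e2, e3] at eκ
    have hc : S (E2 z0 l (derivative G)) ≠ 0 := by
      rw [_root_.map_ne_zero]
      exact hG'
    have hmB : iL l - iO (s l) ∈ B := B.sub_mem (hBL l) (hBO _)
    have hc0 : iO (S (E2 z0 l (derivative G))) ≠ 0 := by
      rw [_root_.map_ne_zero]
      exact hc
    have hco : P.ord (iO (S (E2 z0 l (derivative G)))) = 0 := P.ord_const hc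
    have hsm : Ge P 1 (κ * (iL l - iO (s l))) := by
      have := (hBreg κ hκ).mul (hs l)
      rwa [zero_add] at this
    have hu : iO (S (E2 z0 l (derivative G))) + κ * (iL l - iO (s l)) ≠ 0 ∧
        P.ord (iO (S (E2 z0 l (derivative G))) + κ * (iL l - iO (s l))) = 0 := by
      by_cases h0 : κ * (iL l - iO (s l)) = 0
      · rw [h0, add_zero]
        exact ⟨hc0, hco⟩
      · have h1 := (ge_iff P h0).1 hsm
        have := P.ord_add_eq hc0 h0 (by rw [hco]; omega)
        rw [hco] at this
        exact this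
    refine ⟨iO (S (E2 z0 l (derivative G))) + κ * (iL l - iO (s l)), -H1,
      ⟨B.add_mem (hBO _) (B.mul_mem hκ hmB), hu.1, hu.2⟩, B.neg_mem hH1, ?_⟩
    linear_combination (-1 : E) * eH1 - eκ
  -- step 2
  have step2 : ∀ b ∈ B, ∃ (c : Ω) (u h : E), Un P B u ∧ h ∈ B ∧ (b - iO c) * u = x * h := by
    refine hind _ (fun l => ?_) (fun c => ?_) (fun a _ b _ ha hb => ?_) (fun a ha' b hb' ha hb => ?_)
    · obtain ⟨u, h, h1, h2, h3⟩ := step1 l
      exact ⟨s l, u, h, h1, h2, h3⟩
    · exact ⟨c, 1, 0, Un.one P, B.zero_mem, by ring⟩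
    · obtain ⟨c1, u1, h1, a1, a2, a3⟩ := ha
      obtain ⟨c2, u2, h2, b1, b2, b3⟩ := hb
      refine ⟨c1 + c2, u1 * u2, h1 * u2 + h2 * u1, a1.mul P b1,
        B.add_mem (B.mul_mem a2 b1.mem) (B.mul_mem b2 a1.mem), ?_⟩
      rw [map_add]
      linear_combination u2 * a3 + u1 * b3
    · obtain ⟨c1, u1, h1, a1, a2, a3⟩ := ha
      obtain ⟨c2, u2, h2, b1, b2, b3⟩ := hb
      refine ⟨c1 * c2, u1 * u2, h1 * u2 * b + iO c1 * (h2 * u1), a1.mul P b1,
        B.add_mem (B.mul_mem (B.mul_mem a2 b1.mem) hb')
          (B.mul_mem (hBO _) (B.mul_mem b2 a1.mem)), ?_⟩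
      rw [map_mul]
      linear_combination u2 * b * a3 + u1 * iO c1 * b3
  have step2' : ∀ b ∈ B, Ge P 1 b → ∃ u h : E, Un P B u ∧ h ∈ B ∧ b * u = x * h := by
    intro b hb hb1
    obtain ⟨c, u, h, hu, hh, he⟩ := step2 b hb
    have h1 : Ge P 1 ((b - iO c) * u) := by
      rw [he]
      have := Ge.mul (P := P) (N := 1) (M := 0) (f := x) (Or.inr hx1) (hBreg h hh)
      rwa [add_zero] at this
    have h2 : Ge P 1 (b - iO c) := by
      rw [mul_comm] at h1
      exact Ge.of_mul' hu.ne hu.ord (by simpa using h1)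
    have hc : c = 0 := by
      apply const_zero P
      have := hb1.sub h2
      rwa [sub_sub_cancel] at this
    subst hc
    rw [map_zero, sub_zero] at he
    exact ⟨u, h, hu, hh, he⟩
  have step2b : ∀ N : ℕ, ∀ b ∈ B, b ≠ 0 → P.ord b ≤ N →
      ∃ (n : ℕ) (u1 u2 : E), Un P B u1 ∧ Un P B u2 ∧ b * u2 = x ^ n * u1 := by
    intro N
    induction N with
    | zero =>
      intro b hb hb0 hbN
      have h1 := (ge_iff P hb0).1 (hBreg b hb)
      refine ⟨0, b, 1, ⟨hb, hb0, ?_⟩, Un.one P, by ring⟩
      push_cast at hbN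
      omega
    | succ N ih =>
      intro b hb hb0 hbN
      have h1 := (ge_iff P hb0).1 (hBreg b hb)
      by_cases h2 : P.ord b = 0
      · exact ⟨0, b, 1, ⟨hb, hb0, h2⟩, Un.one P, by ring⟩
      · obtain ⟨u, h, hu, hh, he⟩ := step2' b hb ((ge_iff P hb0).2 (by omega))
        have hh0 : h ≠ 0 := by
          rintro rfl
          rw [mul_zero] at he
          exact mul_ne_zero hb0 hu.ne he
        have h3 : P.ord b = P.ord x + P.ord h := by
          have := congrArg P.ord he
          rwa [P.ord_mul hb0 hu.ne, P.ord_mul hx0 hh0, hu.ord, add_zero] at this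
        obtain ⟨n, u1, u2, a1, a2, a3⟩ := ih h hh hh0 (by push_cast at hbN; omega)
        refine ⟨n + 1, u1, u * u2, a1, hu.mul P a2, ?_⟩
        rw [pow_succ]
        linear_combination u2 * he + x * a3
  have step2c : ∀ f : E, f ≠ 0 → ∃ (n : ℤ) (u1 u2 : E), Un P B u1 ∧ Un P B u2 ∧
      f * u2 = x ^ n * u1 := by
    intro f hf
    obtain ⟨a, ha, b, hb, hb0, he⟩ := hBC.gen f
    have ha0 : a ≠ 0 := by
      rintro rfl
      rw [zero_div] at he
      exact hf he
    have haB := hspan a ha
    have hbB := hspan b hb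
    obtain ⟨n, u1, u2, a1, a2, a3⟩ := step2b (P.ord a).toNat a haB ha0 (Int.self_le_toNat _)
    obtain ⟨m, u3, u4, b1, b2, b3⟩ := step2b (P.ord b).toNat b hbB hb0 (Int.self_le_toNat _)
    refine ⟨(n : ℤ) - m, u1 * u4, u2 * u3, a1.mul P b2, a2.mul P b1, ?_⟩
    rw [zpow_sub₀ hx0, zpow_natCast, zpow_natCast, he]
    have hxm : x ^ m ≠ 0 := pow_ne_zero _ hx0
    field_simp
    linear_combination (x ^ m * u3) * a3 - (x ^ n * u1) * b3
  have hordf : ∀ (f : E) (n : ℤ) (u1 u2 : E), f ≠ 0 → Un P B u1 → Un P B u2 →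
      f * u2 = x ^ n * u1 → P.ord f = n * P.ord x := by
    intro f n u1 u2 hf h1 h2 he
    have := congrArg P.ord he
    rwa [P.ord_mul hf h2.ne, P.ord_mul (zpow_ne_zero _ hx0) h1.ne, h1.ord, h2.ord, add_zero,
      add_zero, P.ord_zpow] at this
  have hx1' : P.ord x = 1 := by
    obtain ⟨t, ht0, ht⟩ := P.surj
    obtain ⟨n, u1, u2, a1, a2, a3⟩ := step2c t ht0
    have h1 := hordf t n u1 u2 ht0 a1 a2 a3
    rw [ht] at h1
    have h2 : P.ord x ∣ 1 := ⟨n, by rw [h1, mul_comm]⟩
    have h3 := Int.le_of_dvd one_pos h2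
    omega
  -- step 3
  have hUn : ∀ u, Un P B u → Ge P 0 (D u / u) := by
    intro u hu
    have h1 : Ge P 0 (u * (D u / u)) := by
      rw [mul_div_cancel₀ _ hu.ne]
      exact hBreg _ (hDB u hu.mem)
    have := Ge.of_mul' (N := 0) hu.ne hu.ord (by simpa using h1)
    exact this
  have step3 : ∀ f : E, f ≠ 0 → ∃ q : E, Ge P 0 q ∧
      D f = f * ((P.ord f : E) * (D x / x) + q) := by
    intro f hf
    obtain ⟨n, u1, u2, a1, a2, a3⟩ := step2c f hf
    have hn := hordf f n u1 u2 hf a1 a2 a3
    rw [hx1', mul_one] at hn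
    refine ⟨D u1 / u1 - D u2 / u2, (hUn u1 a1).sub (hUn u2 a2), ?_⟩
    have h1 := congrArg (fun t => D t) a3
    simp only [Derivation.leibniz, smul_eq_mul] at h1
    have h2 : D (x ^ n) = (n : E) * x ^ (n - 1) * D x := by
      rw [Derivation.leibniz_zpow]
      simp only [smul_eq_mul, zsmul_eq_mul]
      ring
    rw [h2, zpow_sub_one₀ hx0] at h1
    rw [hn]
    have hu1 := a1.ne
    have hu2 := a2.ne
    have hff : f = x ^ n * u1 / u2 := by
      rw [eq_div_iff hu2, a3]
    have h3 : D f * u2 = x ^ n * D u1 + u1 * ((n : E) * (x ^ n * x⁻¹) * D x) - f * D u2 := by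
      linear_combination h1
    have h4 : D f = (x ^ n * D u1 + u1 * ((n : E) * (x ^ n * x⁻¹) * D x) - f * D u2) / u2 := by
      rw [← h3, mul_div_cancel_right₀ _ hu2]
    rw [h4, hff]
    field_simp
    ring
  by_cases hcase : D0 (s z0) = 0
  · left
    intro f hDf
    have hf : f ≠ 0 := by
      rintro rfl
      exact hDf (map_zero D)
    obtain ⟨q, hq, he⟩ := step3 f hf
    rw [hDx, hcase, map_zero, neg_zero, zero_div, mul_zero, zero_add] at he
    have hq0 : q ≠ 0 := by
      rintro rfl
      rw [mul_zero] at he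
      exact hDf he
    rw [he, P.ord_mul hf hq0]
    have := (ge_iff P hq0).1 hq
    omega
  · right
    have hDx0 : D x ≠ 0 := by
      rw [hDx, neg_ne_zero, _root_.map_ne_zero]
      exact hcase
    have hDxo : P.ord (D x) = 0 := by
      rw [hDx, P.ord_neg]
      exact P.ord_const hcase
    have hr0 : D x / x ≠ 0 := div_ne_zero hDx0 hx0
    have hro : P.ord (D x / x) = -1 := by
      rw [P.ord_div hDx0 hx0, hDxo, hx1']
      rfl
    have hnc : ∀ n : ℤ, n ≠ 0 → (n : E) ≠ 0 ∧ P.ord (n : E) = 0 := by
      intro n hn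
      have h1 : ((n : Ω)) ≠ 0 := by
        exact_mod_cast hn
      have h2 : (n : E) = algebraMap Ω E (n : Ω) := by
        rw [map_intCast]
      rw [h2]
      refine ⟨?_, P.ord_const h1⟩
      rw [_root_.map_ne_zero]
      exact h1
    have hge : ∀ n : ℤ, Ge P (-1) ((n : E) * (D x / x)) := by
      intro n
      have h1 := (Ge.intCast (P := P) n).mul (M := -1) (g := D x / x) (Or.inr hro.ge)
      simpa using h1
    have part1 : ∀ f, D f ≠ 0 → P.ord f - 1 ≤ P.ord (D f) := by
      intro f hDf
      have hf : f ≠ 0 := by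
        rintro rfl
        exact hDf (map_zero D)
      obtain ⟨q, hq, he⟩ := step3 f hf
      have h1 : Ge P (-1) ((P.ord f : E) * (D x / x) + q) :=
        (hge _).add (hq.mono (by norm_num))
      have h0 : (P.ord f : E) * (D x / x) + q ≠ 0 := by
        intro h0
        rw [h0, mul_zero] at he
        exact hDf he
      rw [he, P.ord_mul hf h0]
      have := (ge_iff P h0).1 h1
      omega
    refine ⟨part1, ?_, ?_⟩
    · intro f hf0 hDf
      by_cases h1 : P.ord f = 0
      · have hf : f ≠ 0 := by
          rintro rfl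
          exact hDf (map_zero D)
        obtain ⟨q, hq, he⟩ := step3 f hf
        rw [h1, Int.cast_zero, zero_mul, zero_add] at he
        have hq0 : q ≠ 0 := by
          rintro rfl
          rw [mul_zero] at he
          exact hDf he
        rw [he, P.ord_mul hf hq0]
        have := (ge_iff P hq0).1 hq
        omega
      · have := part1 f hDf
        omega
    · intro a ha
      by_cases ha0 : a = 0
      · rw [ha0, P.ord_zero]
      · by_contra hn
        obtain ⟨q, hq, he⟩ := step3 a ha0
        rw [ha] at he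
        have h1 : (P.ord a : E) * (D x / x) + q = 0 := by
          rcases mul_eq_zero.1 he.symm with h | h
          · exact absurd h ha0
          · exact h
        obtain ⟨h2, h3⟩ := hnc _ hn
        have h4 : q = -((P.ord a : E) * (D x / x)) := by
          linear_combination h1
        have hq0 : q ≠ 0 := by
          rw [h4, neg_ne_zero]
          exact mul_ne_zero h2 hr0
        have h5 := (ge_iff P hq0).1 hq
        rw [h4, P.ord_neg, P.ord_mul h2 hr0, h3, hro] at h5
        omega

end Pool.Agent.W440.RG.RGM
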